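import Pool.Agent.L5helper91.EB.Bohr

set_option autoImplicit false

namespace Pool.Agent.Results.MP_36bb18_co.AlmostPeriodic

open Pool.Agent.L5helper91.EB Topology

/-- There is no almost periodic obstruction to the pattern. Let `φ` be a map from the positive
integers to a compact Hausdorff abelian group with `φ (m n) = φ m + φ n`.
(1) For every neighbourhood `U` of `0` and every `M` some `h > 1` has `φ b ∈ U` and `φ (b ^ b) ∈ U`
for all of `b = h, h ^ 2, …, h ^ M`.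
(2) If a colouring `τ` is `F ∘ φ` on the positive integers and `F` is constant near `φ x` for some
`x ≥ 1`, then for every `M` some `h > 1` is such that for every `b = h, h ^ 2, …, h ^ M` the numbers
`x, x * b, x * b ^ b` have one colour. -/
theorem result (K : Type) [AddCommGroup K] [TopologicalSpace K] [IsTopologicalAddGroup K]
    [CompactSpace K] [T2Space K] (φ : ℕ → K)
    (hφ : ∀ m n : ℕ, 1 ≤ m → 1 ≤ n → φ (m * n) = φ m + φ n) :
    (∀ U ∈ 𝓝 (0 : K), ∀ M : ℕ, ∃ h : ℕ, 1 < h ∧ ∀ y : ℕ, 1 ≤ y → y ≤ M →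
      φ (h ^ y) ∈ U ∧ φ ((h ^ y) ^ (h ^ y)) ∈ U) ∧
    (∀ (m : ℕ) (τ : ℕ → Fin m) (F : K → Fin m), (∀ n : ℕ, 1 ≤ n → τ n = F (φ n)) →
      ∀ x : ℕ, 1 ≤ x → (∀ᶠ k in 𝓝 (φ x), F k = F (φ x)) → ∀ M : ℕ,
        ∃ h : ℕ, 1 < h ∧ ∀ y : ℕ, 1 ≤ y → y ≤ M →
          τ (x * h ^ y) = τ x ∧ τ (x * (h ^ y) ^ (h ^ y)) = τ x) := by
  refine ⟨fun U hU M => bohr φ hφ U hU M, ?_⟩
  intro m τ F hτ x hx hF M
  have hU : {k : K | F (φ x + k) = F (φ x)} ∈ 𝓝 (0 : K) := by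
    have h1 : Filter.Tendsto (fun k : K => φ x + k) (𝓝 0) (𝓝 (φ x)) := by
      have h2 : Filter.Tendsto (fun k : K => φ x + k) (𝓝 0) (𝓝 (φ x + 0)) :=
        tendsto_const_nhds.add Filter.tendsto_id
      rwa [add_zero] at h2
    exact h1.eventually hF
  obtain ⟨h, hh, hall⟩ := bohr φ hφ _ hU M
  refine ⟨h, hh, fun y hy hyM => ?_⟩
  obtain ⟨h1, h2⟩ := hall y hy hyM
  have hpos : 1 ≤ h ^ y := Nat.one_le_pow _ _ (by omega)
  have hpos2 : 1 ≤ (h ^ y) ^ (h ^ y) := Nat.one_le_pow _ _ hpos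
  constructor
  · rw [hτ _ (Nat.mul_pos hx hpos), hτ x hx, hφ _ _ hx hpos]
    exact h1
  · rw [hτ _ (Nat.mul_pos hx hpos2), hτ x hx, hφ _ _ hx hpos2]
    exact h2

end Pool.Agent.Results.MP_36bb18_co.AlmostPeriodic
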