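import Pool.Agent.L5helper91.EB.Transfer

set_option autoImplicit false

namespace Pool.Agent.Results.MP_36bb18_co.SelfPowers

open Pool.Agent.L5helper91.EB

/-- Part 1: for every finite colouring, every `g > 1` and every `J` there are a power `a` of `g` and
`b > 1` such that `a`, `a ^ (b ^ b)` and all `a ^ (j ^ b)` with `1 ≤ j ≤ J` have one colour.
Part 2: for every colouring with two colours (and `J`) there are `a, b > 1` such that
`a`, `b`, `a ^ (b ^ b)` and all `a ^ (j ^ b)` with `1 ≤ j ≤ J` have one colour.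
Part 3: the same for a finite colouring each of whose colours occurs, for some `M`, among
`a, a ^ 2, …, a ^ M` for every `a > 1`. -/
theorem result :
    (∀ (r : ℕ) (c : ℕ → Fin r) (g : ℕ), 1 < g → ∀ J : ℕ, ∃ k b : ℕ, 1 ≤ k ∧ 1 < b ∧
      c ((g ^ k) ^ (b ^ b)) = c (g ^ k) ∧
      ∀ j : ℕ, 1 ≤ j → j ≤ J → c ((g ^ k) ^ (j ^ b)) = c (g ^ k)) ∧
    (∀ (c : ℕ → Fin 2) (J : ℕ), ∃ a b : ℕ, 1 < a ∧ 1 < b ∧ c b = c a ∧ c (a ^ (b ^ b)) = c a ∧
      ∀ j : ℕ, 1 ≤ j → j ≤ J → c (a ^ (j ^ b)) = c a) ∧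
    (∀ (r : ℕ) (c : ℕ → Fin r) (J : ℕ),
      (∀ i : Fin r, ∃ M : ℕ, ∀ a : ℕ, 1 < a → ∃ n : ℕ, 1 ≤ n ∧ n ≤ M ∧ c (a ^ n) = i) →
      ∃ a b : ℕ, 1 < a ∧ 1 < b ∧ c b = c a ∧ c (a ^ (b ^ b)) = c a ∧
        ∀ j : ℕ, 1 ≤ j → j ≤ J → c (a ^ (j ^ b)) = c a) := by
  refine ⟨?_, ?_, ?_⟩
  · intro r c g hg J
    exact pairs (Fin r) c g hg J
  · intro c J
    obtain ⟨a, b, ha, hb, h1, h2, h3⟩ := two (fun n => decide (c n = 0)) J
    have key : ∀ m n : ℕ, decide (c m = 0) = decide (c n = 0) → c m = c n := by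
      intro m n h
      rw [decide_eq_decide] at h
      by_cases hm : c m = 0
      · rw [hm, h.mp hm]
      · have hn : c n ≠ 0 := fun hn => hm (h.mpr hn)
        omega
    exact ⟨a, b, ha, hb, key _ _ h1, key _ _ h2, fun j hj hJ => key _ _ (h3 j hj hJ)⟩
  · intro r c J hp
    exact persist (Fin r) c J hp

end Pool.Agent.Results.MP_36bb18_co.SelfPowers
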