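import Pool.Agent.L5helper91.EB.All

set_option autoImplicit false

namespace Pool.Agent.Results.MP_36bb18_co.TwoColours

open Pool.Agent.L5helper91.EB

/-- Part 1 (Q1 for two colours): every colouring with two colours has `a, b > 1` such that
`a`, `b`, `a ^ b`, `a ^ (b ^ b)` have one colour.
Part 2: every finite colouring has `b > 1` and a power `a = g ^ k` of a given `g > 1` such that
`a`, `a ^ b`, `a ^ (b ^ b)` have one colour.
Part 3: the conclusion of part 1 for every finite colouring each of whose colours occurs, for some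
`M`, among `a, a ^ 2, …, a ^ M` for every `a > 1`.
In all parts the numbers `a ^ (j ^ b)` with `1 ≤ j ≤ J` (`J` given) have the colour of `a` too. -/
theorem result :
    (∀ (c : ℕ → Fin 2) (J : ℕ), ∃ a b : ℕ, 1 < a ∧ 1 < b ∧ c b = c a ∧ c (a ^ b) = c a ∧
      c (a ^ (b ^ b)) = c a ∧ ∀ j : ℕ, 1 ≤ j → j ≤ J → c (a ^ (j ^ b)) = c a) ∧
    (∀ (r : ℕ) (c : ℕ → Fin r) (g : ℕ), 1 < g → ∀ J : ℕ, ∃ k b : ℕ, 1 ≤ k ∧ 1 < b ∧
      c ((g ^ k) ^ b) = c (g ^ k) ∧ c ((g ^ k) ^ (b ^ b)) = c (g ^ k) ∧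
      ∀ j : ℕ, 1 ≤ j → j ≤ J → c ((g ^ k) ^ (j ^ b)) = c (g ^ k)) ∧
    (∀ (r : ℕ) (c : ℕ → Fin r) (J : ℕ),
      (∀ i : Fin r, ∃ M : ℕ, ∀ a : ℕ, 1 < a → ∃ n : ℕ, 1 ≤ n ∧ n ≤ M ∧ c (a ^ n) = i) →
      ∃ a b : ℕ, 1 < a ∧ 1 < b ∧ c b = c a ∧ c (a ^ b) = c a ∧ c (a ^ (b ^ b)) = c a ∧
        ∀ j : ℕ, 1 ≤ j → j ≤ J → c (a ^ (j ^ b)) = c a) := by
  have key : ∀ (c : ℕ → Fin 2) (m n : ℕ), decide (c m = 0) = decide (c n = 0) → c m = c n := by
    intro c m n h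
    rw [decide_eq_decide] at h
    by_cases hm : c m = 0
    · rw [hm, h.mp hm]
    · have hn : c n ≠ 0 := fun hn => hm (h.mpr hn)
      omega
  refine ⟨?_, ?_, ?_⟩
  · intro c J
    obtain ⟨a, b, ha, hb, h1, h2, h3, h4⟩ := two4 (fun n => decide (c n = 0)) J
    exact ⟨a, b, ha, hb, key c _ _ h1, key c _ _ h2, key c _ _ h3,
      fun j hj hJ => key c _ _ (h4 j hj hJ)⟩
  · intro r c g _ J
    exact three_all (Fin r) c g J
  · intro r c J hp
    exact persist4 (Fin r) c J hp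

end Pool.Agent.Results.MP_36bb18_co.TwoColours
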